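import Mathlib

/-!
Prouhet-Tarry-Escott solutions by pigeonhole.
-/

namespace Pool.Agent.H492R2

open Finset

/-- PTE: pigeonhole on subsets of `[0,X)` and the vector of the first `j` power sums. -/
theorem pte (j X : ℕ) (hj : 1 ≤ j) (hX : (X ^ j + 1) ^ j < 2 ^ X) :
    ∃ A B : Finset ℕ, A ⊆ range X ∧ B ⊆ range X ∧ Disjoint A B ∧ A.Nonempty ∧
      B.Nonempty ∧ ∀ l < j, ∑ x ∈ A, x ^ l = ∑ x ∈ B, x ^ l := by
  classical
  -- the map from subsets to vectors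
  let F : Finset ℕ → (Fin j → ℕ) := fun S l => ∑ x ∈ S, x ^ (l : ℕ)
  have hmaps : ∀ S ∈ (range X).powerset, F S ∈ Fintype.piFinset (fun _ : Fin j => range (X ^ j + 1)) := by
    intro S hS
    rw [Fintype.mem_piFinset]
    intro l
    rw [mem_range]
    have hS' : S ⊆ range X := Finset.mem_powerset.mp hS
    have h1 : F S l ≤ ∑ x ∈ range X, x ^ (l : ℕ) := Finset.sum_le_sum_of_subset hS'
    have h2 : ∑ x ∈ range X, x ^ (l : ℕ) ≤ X * X ^ (l : ℕ) := by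
      calc ∑ x ∈ range X, x ^ (l : ℕ) ≤ ∑ _x ∈ range X, X ^ (l : ℕ) := by
            apply Finset.sum_le_sum
            intro x hx
            exact Nat.pow_le_pow_left (le_of_lt (mem_range.mp hx)) _
        _ = X * X ^ (l : ℕ) := by rw [sum_const, card_range, smul_eq_mul]
    have h3 : X * X ^ (l : ℕ) ≤ X ^ j := by
      rcases Nat.eq_zero_or_pos X with h0 | h0
      · subst h0; simp
      · calc X * X ^ (l : ℕ) = X ^ ((l : ℕ) + 1) := by rw [pow_succ]; ring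
          _ ≤ X ^ j := Nat.pow_le_pow_right h0 l.2
    omega
  have hcard : (Fintype.piFinset (fun _ : Fin j => range (X ^ j + 1))).card <
      (range X).powerset.card := by
    rw [Fintype.card_piFinset, card_powerset, card_range]
    simpa using hX
  obtain ⟨S₁, hS₁, S₂, hS₂, hne, hF⟩ :=
    Finset.exists_ne_map_eq_of_card_lt_of_maps_to hcard hmaps
  have hsum : ∀ l < j, ∑ x ∈ S₁, x ^ l = ∑ x ∈ S₂, x ^ l := by
    intro l hl
    exact congrFun hF ⟨l, hl⟩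
  have hsum2 : ∀ l < j, ∑ x ∈ S₁ \ S₂, x ^ l = ∑ x ∈ S₂ \ S₁, x ^ l := by
    intro l hl
    have h1 := hsum l hl
    have h2 : ∑ x ∈ S₁, x ^ l = ∑ x ∈ S₁ \ S₂, x ^ l + ∑ x ∈ S₁ ∩ S₂, x ^ l := by
      rw [← Finset.sum_union (Finset.disjoint_left.mpr (fun x hx hx2 => ?_)),
        Finset.sdiff_union_inter]
      rw [Finset.mem_sdiff] at hx
      rw [Finset.mem_inter] at hx2
      exact hx.2 hx2.2
    have h3 : ∑ x ∈ S₂, x ^ l = ∑ x ∈ S₂ \ S₁, x ^ l + ∑ x ∈ S₁ ∩ S₂, x ^ l := by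
      rw [Finset.inter_comm, ← Finset.sum_union (Finset.disjoint_left.mpr (fun x hx hx2 => ?_)),
        Finset.sdiff_union_inter]
      rw [Finset.mem_sdiff] at hx
      rw [Finset.mem_inter] at hx2
      exact hx.2 hx2.2
    omega
  have hc : (S₁ \ S₂).card = (S₂ \ S₁).card := by
    have := hsum2 0 hj
    simpa using this
  have hne1 : (S₁ \ S₂).Nonempty := by
    by_contra h
    rw [Finset.not_nonempty_iff_eq_empty] at h
    rw [h, card_empty] at hc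
    have h2 : S₂ \ S₁ = ∅ := Finset.card_eq_zero.mp hc.symm
    apply hne
    exact Finset.Subset.antisymm (Finset.sdiff_eq_empty_iff_subset.mp h)
      (Finset.sdiff_eq_empty_iff_subset.mp h2)
  have hne2 : (S₂ \ S₁).Nonempty := by
    rw [← Finset.card_pos, ← hc, Finset.card_pos]
    exact hne1
  refine ⟨S₁ \ S₂, S₂ \ S₁, ?_, ?_, ?_, hne1, hne2, hsum2⟩
  · exact Finset.sdiff_subset.trans (Finset.mem_powerset.mp hS₁)
  · exact Finset.sdiff_subset.trans (Finset.mem_powerset.mp hS₂)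
  · rw [Finset.disjoint_left]
    intro x hx hx2
    rw [Finset.mem_sdiff] at hx hx2
    exact hx.2 hx2.1

theorem cube_le (j : ℕ) (hj : 16 ≤ j) : j ^ 3 ≤ 2 ^ (j - 1) := by
  induction j, hj using Nat.le_induction with
  | base => norm_num
  | succ n hn ih =>
    have h1 : n + 1 - 1 = (n - 1) + 1 := by omega
    rw [h1, pow_succ]
    have h2 : (n + 1) ^ 3 ≤ n ^ 3 * 2 := by nlinarith [sq_nonneg n, mul_self_nonneg (n - 16 : ℤ)]
    calc (n + 1) ^ 3 ≤ n ^ 3 * 2 := h2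
      _ ≤ 2 ^ (n - 1) * 2 := Nat.mul_le_mul_right _ ih

theorem pte_cube (j : ℕ) (hj : 16 ≤ j) :
    ∃ A B : Finset ℕ, A ⊆ range (j ^ 3) ∧ B ⊆ range (j ^ 3) ∧ Disjoint A B ∧ A.Nonempty ∧
      B.Nonempty ∧ ∀ l < j, ∑ x ∈ A, x ^ l = ∑ x ∈ B, x ^ l := by
  apply pte j (j ^ 3) (by omega)
  have h1 := cube_le j hj
  have h2 : (j ^ 3) ^ j ≤ 2 ^ ((j - 1) * j) := by
    rw [pow_mul]
    exact Nat.pow_le_pow_left h1 j
  have h3 : (j ^ 3) ^ j + 1 ≤ 2 ^ ((j - 1) * j + 1) := by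
    have h4 : 2 ^ ((j - 1) * j + 1) = 2 ^ ((j - 1) * j) + 2 ^ ((j - 1) * j) := by
      rw [pow_succ]; ring
    have : 1 ≤ 2 ^ ((j - 1) * j) := Nat.one_le_two_pow
    rw [h4]
    exact Nat.add_le_add h2 this
  calc ((j ^ 3) ^ j + 1) ^ j ≤ (2 ^ ((j - 1) * j + 1)) ^ j := Nat.pow_le_pow_left h3 j
    _ = 2 ^ (((j - 1) * j + 1) * j) := by rw [← pow_mul]
    _ < 2 ^ (j ^ 3) := by
      apply Nat.pow_lt_pow_right (by norm_num)
      obtain ⟨k, rfl⟩ : ∃ k, j = k + 1 := ⟨j - 1, by omega⟩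
      simp only [Nat.add_sub_cancel]
      nlinarith [sq_nonneg k]

end Pool.Agent.H492R2
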